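import Mathlib
import Pool.Agent.Helper9.NS
import Pool.Agent.Helper15.GT.RDec

/-!
# B4: Voisin's property for invariant subfields, the surfaces with `p_g = q = 2`, `K ^ 2 = 4`, definitions

* `VPJH k N H p`: Voisin's property for `n > p` for the closures of points with coordinates in the fixed field of
  the finite group `H` of automorphisms of `N`, for the cycles the pull-backs of which to `N` are Albanese trivial.
* `Phi`: the surface `{φ = 0}` in the third symmetric power of the curve `C : y ^ 2 = ∏_{j < 6} (x - a j)`, where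
  `φ = c 0 + c 1 e₁ + c 2 e₂ + c 3 e₃` in the elementary symmetric functions of `x 0`, `x 1`, `x 2`; `N` is the function field of its preimage
  in `C ^ 3`.
* `Psi`: the double cover `w ^ 2 = ψ` of the second symmetric power of the curve `C : y ^ 2 = ∏_{j < 5} (x - a j)`,
  `ψ = c 0 + c 1 (x 0 + x 1) + c 2 x 0 x 1`; `N` is the function field of its preimage over `C ^ 2`.
-/

set_option linter.unusedSectionVars false

namespace Pool.Agent.Helper79.B4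

open VC VF Function Polynomial Pool.Agent.Helper21.TO Pool.Agent.Helper15.GT

universe u

/-- Voisin's property for `n > p`, for all closures of points with coordinates in the fixed field of `H`, and
for the cycles `a` such that the sum of the translates of a lift of `a` to rational places of `N` under `H` is Albanese
trivial. -/
def VPJH (k N : Type u) [Field k] [IsAlgClosed k] [CharZero k] [Field N] [Algebra k N]
    (H : Subgroup (N ≃ₐ[k] N)) [Fintype H] (p : ℕ) : Prop :=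
  ∀ (M : ℕ) (ξ : Fin M → N) (hξ : ξ ≠ 0), (∀ η ∈ H, ∀ i, η (ξ i) = ξ i) → ∀ n : ℕ, p < n →
    VoisinOn (proj k (van k ξ)) {b | ∃ a : RPl k N →₀ ℤ,
      AJ k N (∑ η : H, a.mapDomain (fun w => w.comap ((η : N ≃ₐ[k] N) : N →ₐ[k] N))) ∧
      b = a.mapDomain (evP ξ hξ)} n

/-! ### The surface in the third symmetric power -/

/-- The data of the surface `{φ = 0}` in the third symmetric power of the curve `y ^ 2 = ∏_{j < 6} (x - a j)`. -/
structure Phi (k N : Type u) [Field k] [Field N] [Algebra k N] where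
  x : Fin 3 → N
  y : Fin 3 → N
  a : Fin 6 → k
  ha : Injective a
  c : Fin 4 → k
  hc : c ≠ 0
  hx : AlgebraicIndependent k ![x 0, x 1]
  hy : ∀ i, y i ^ 2 = ∏ j, (x i - algebraMap k N (a j))
  hφ : algebraMap k N (c 0) + algebraMap k N (c 1) * (x 0 + x 1 + x 2) +
    algebraMap k N (c 2) * (x 0 * x 1 + x 0 * x 2 + x 1 * x 2) + algebraMap k N (c 3) * (x 0 * x 1 * x 2) = 0
  hgen : IntermediateField.adjoin k (Set.range x ∪ Set.range y) = ⊤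
  hdeg : Module.finrank (IntermediateField.adjoin k {x 0, x 1}) N = 8

/-- The data of the double cover `w ^ 2 = ψ` of the second symmetric power of the curve `y ^ 2 = ∏_{j < 5} (x - a j)`. -/
structure Psi (k N : Type u) [Field k] [Field N] [Algebra k N] where
  x : Fin 2 → N
  y : Fin 2 → N
  w : N
  a : Fin 5 → k
  ha : Injective a
  c : Fin 3 → k
  hx : AlgebraicIndependent k ![x 0, x 1]
  hy : ∀ i, y i ^ 2 = ∏ j, (x i - algebraMap k N (a j))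
  hw : w ^ 2 = algebraMap k N (c 0) + algebraMap k N (c 1) * (x 0 + x 1) + algebraMap k N (c 2) * (x 0 * x 1)
  hgen : IntermediateField.adjoin k (Set.range x ∪ Set.range y ∪ {w}) = ⊤
  hdeg : Module.finrank (IntermediateField.adjoin k {x 0, x 1}) N = 8

section

variable {k N : Type u} [Field k] [Field N] [Algebra k N]

/-- The automorphism `σ` acts by the permutation `π` and the signs `ε`. -/
def Phi.Acts (D : Phi k N) (π : Equiv.Perm (Fin 3)) (ε : Fin 3 → ℤˣ) (σ : N ≃ₐ[k] N) : Prop :=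
  ∀ i, σ (D.x i) = D.x (π i) ∧ σ (D.y i) = (((ε i : ℤˣ) : ℤ) : N) * D.y (π i)

/-- The automorphism `σ` acts by the permutation `π` and the signs `ε`, `δ`. -/
def Psi.Acts (D : Psi k N) (π : Equiv.Perm (Fin 2)) (ε : Fin 2 → ℤˣ) (δ : ℤˣ) (σ : N ≃ₐ[k] N) : Prop :=
  (∀ i, σ (D.x i) = D.x (π i) ∧ σ (D.y i) = (((ε i : ℤˣ) : ℤ) : N) * D.y (π i)) ∧
    σ D.w = (((δ : ℤˣ) : ℤ) : N) * D.w

lemma perm_two {π : Equiv.Perm (Fin 3)} (h : π 2 = 2) : (π 0 = 0 ∧ π 1 = 1) ∨ (π 0 = 1 ∧ π 1 = 0) := by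
  revert π
  decide

lemma Phi.Acts.one (D : Phi k N) : D.Acts 1 1 1 := fun i => ⟨rfl, by
  simp⟩

lemma Phi.Acts.mul {D : Phi k N} {π π' : Equiv.Perm (Fin 3)} {ε ε' : Fin 3 → ℤˣ} {σ σ' : N ≃ₐ[k] N}
    (h : D.Acts π ε σ) (h' : D.Acts π' ε' σ') : D.Acts (π * π') (fun i => ε (π' i) * ε' i) (σ * σ') := by
  intro i
  refine ⟨?_, ?_⟩
  · rw [AlgEquiv.mul_apply, (h' i).1, (h _).1]
    rfl
  · rw [AlgEquiv.mul_apply, (h' i).2, map_mul, map_intCast, (h _).2]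
    push_cast
    rw [Function.comp_apply]
    ring

lemma Phi.Acts.inv {D : Phi k N} {π : Equiv.Perm (Fin 3)} {ε : Fin 3 → ℤˣ} {σ : N ≃ₐ[k] N}
    (h : D.Acts π ε σ) : D.Acts π⁻¹ (fun i => ε (π⁻¹ i)) σ⁻¹ := by
  intro i
  have h1 := h (π⁻¹ i)
  have h2 : π (π⁻¹ i) = i := Equiv.apply_symm_apply π i
  rw [h2] at h1
  refine ⟨?_, ?_⟩
  · rw [← h1.1]
    exact σ.symm_apply_apply _
  · have h3 : (((ε (π⁻¹ i) : ℤˣ) : ℤ) : N) * (((ε (π⁻¹ i) : ℤˣ) : ℤ) : N) = 1 := by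
      rw [← Int.cast_mul, ← Units.val_mul, Int.units_mul_self, Units.val_one, Int.cast_one]
    have h4 : D.y i = σ ((((ε (π⁻¹ i) : ℤˣ) : ℤ) : N) * D.y (π⁻¹ i)) := by
      rw [map_mul, map_intCast, h1.2, ← mul_assoc, h3, one_mul]
    rw [h4]
    exact σ.symm_apply_apply _

lemma Psi.Acts.one (D : Psi k N) : D.Acts 1 1 1 1 := ⟨fun i => ⟨rfl, by simp⟩, by simp⟩

lemma Psi.Acts.mul {D : Psi k N} {π π' : Equiv.Perm (Fin 2)} {ε ε' : Fin 2 → ℤˣ} {δ δ' : ℤˣ} {σ σ' : N ≃ₐ[k] N}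
    (h : D.Acts π ε δ σ) (h' : D.Acts π' ε' δ' σ') :
    D.Acts (π * π') (fun i => ε (π' i) * ε' i) (δ * δ') (σ * σ') := by
  refine ⟨fun i => ⟨?_, ?_⟩, ?_⟩
  · rw [AlgEquiv.mul_apply, (h'.1 i).1, (h.1 _).1]
    rfl
  · rw [AlgEquiv.mul_apply, (h'.1 i).2, map_mul, map_intCast, (h.1 _).2]
    push_cast
    rw [Function.comp_apply]
    ring
  · rw [AlgEquiv.mul_apply, h'.2, map_mul, map_intCast, h.2]
    push_cast
    ring

lemma Psi.Acts.inv {D : Psi k N} {π : Equiv.Perm (Fin 2)} {ε : Fin 2 → ℤˣ} {δ : ℤˣ} {σ : N ≃ₐ[k] N}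
    (h : D.Acts π ε δ σ) : D.Acts π⁻¹ (fun i => ε (π⁻¹ i)) δ σ⁻¹ := by
  refine ⟨?_, ?_⟩
  · intro i
    have h1 := h.1 (π⁻¹ i)
    have h2 : π (π⁻¹ i) = i := Equiv.apply_symm_apply π i
    rw [h2] at h1
    refine ⟨?_, ?_⟩
    · rw [← h1.1]
      exact σ.symm_apply_apply _
    · have h3 : (((ε (π⁻¹ i) : ℤˣ) : ℤ) : N) * (((ε (π⁻¹ i) : ℤˣ) : ℤ) : N) = 1 := by
        rw [← Int.cast_mul, ← Units.val_mul, Int.units_mul_self, Units.val_one, Int.cast_one]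
      have h4 : D.y i = σ ((((ε (π⁻¹ i) : ℤˣ) : ℤ) : N) * D.y (π⁻¹ i)) := by
        rw [map_mul, map_intCast, h1.2, ← mul_assoc, h3, one_mul]
      rw [h4]
      exact σ.symm_apply_apply _
  · have h3 : (((δ : ℤˣ) : ℤ) : N) * (((δ : ℤˣ) : ℤ) : N) = 1 := by
      rw [← Int.cast_mul, ← Units.val_mul, Int.units_mul_self, Units.val_one, Int.cast_one]
    have h4 : D.w = σ ((((δ : ℤˣ) : ℤ) : N) * D.w) := by
      rw [map_mul, map_intCast, h.2, ← mul_assoc, h3, one_mul]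
    have h5 : σ⁻¹ (σ ((((δ : ℤˣ) : ℤ) : N) * D.w)) = (((δ : ℤˣ) : ℤ) : N) * D.w := σ.symm_apply_apply _
    rwa [← h4] at h5

/-- The symmetric group. -/
def Phi.H (D : Phi k N) : Subgroup (N ≃ₐ[k] N) where
  carrier := {σ | ∃ π, D.Acts π 1 σ}
  one_mem' := ⟨1, Phi.Acts.one D⟩
  mul_mem' := by
    rintro σ σ' ⟨π, h⟩ ⟨π', h'⟩
    refine ⟨π * π', ?_⟩
    have h1 := h.mul h'
    simp only [Pi.one_apply, mul_one] at h1
    exact h1
  inv_mem' := by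
    rintro σ ⟨π, h⟩
    exact ⟨π⁻¹, h.inv⟩

/-- `π 0 = 0`, `ε 0 = 1`. -/
def Phi.G1 (D : Phi k N) : Subgroup (N ≃ₐ[k] N) where
  carrier := {σ | ∃ π ε, D.Acts π ε σ ∧ π 0 = 0 ∧ ε 0 = 1}
  one_mem' := ⟨1, 1, Phi.Acts.one D, rfl, rfl⟩
  mul_mem' := by
    rintro σ σ' ⟨π, ε, h, h1, h2⟩ ⟨π', ε', h', h1', h2'⟩
    refine ⟨_, _, h.mul h', ?_, ?_⟩
    · rw [Equiv.Perm.mul_apply, h1', h1]
    · rw [h1', h2, h2', one_mul]
  inv_mem' := by
    rintro σ ⟨π, ε, h, h1, h2⟩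
    have h3 : π⁻¹ 0 = 0 := by
      rw [Equiv.Perm.inv_eq_iff_eq, h1]
    refine ⟨_, _, h.inv, h3, ?_⟩
    rw [h3, h2]

/-- `π 2 = 2`, `ε 0 * ε 1 = 1`. -/
def Phi.G2 (D : Phi k N) : Subgroup (N ≃ₐ[k] N) where
  carrier := {σ | ∃ π ε, D.Acts π ε σ ∧ π 2 = 2 ∧ ε 0 * ε 1 = 1}
  one_mem' := ⟨1, 1, Phi.Acts.one D, rfl, rfl⟩
  mul_mem' := by
    rintro σ σ' ⟨π, ε, h, h1, h2⟩ ⟨π', ε', h', h1', h2'⟩
    refine ⟨_, _, h.mul h', ?_, ?_⟩
    · rw [Equiv.Perm.mul_apply, h1', h1]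
    · have h3 : ε (π' 0) * ε (π' 1) = 1 := by
        rcases perm_two h1' with ⟨h5, h6⟩ | ⟨h5, h6⟩
        · rw [h5, h6, h2]
        · rw [h5, h6, mul_comm, h2]
      calc ε (π' 0) * ε' 0 * (ε (π' 1) * ε' 1) = (ε (π' 0) * ε (π' 1)) * (ε' 0 * ε' 1) := by
            rw [mul_mul_mul_comm]
        _ = 1 := by rw [h3, h2', one_mul]
  inv_mem' := by
    rintro σ ⟨π, ε, h, h1, h2⟩
    have h3 : π⁻¹ 2 = 2 := by
      rw [Equiv.Perm.inv_eq_iff_eq, h1]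
    refine ⟨_, _, h.inv, h3, ?_⟩
    rcases perm_two h3 with ⟨h5, h6⟩ | ⟨h5, h6⟩
    · rw [h5, h6, h2]
    · rw [h5, h6, mul_comm, h2]

/-- `ε 0 * ε 1 * ε 2 = 1`. -/
def Phi.G3 (D : Phi k N) : Subgroup (N ≃ₐ[k] N) where
  carrier := {σ | ∃ π ε, D.Acts π ε σ ∧ ∏ i, ε i = 1}
  one_mem' := ⟨1, 1, Phi.Acts.one D, by simp⟩
  mul_mem' := by
    rintro σ σ' ⟨π, ε, h, h1⟩ ⟨π', ε', h', h1'⟩
    refine ⟨_, _, h.mul h', ?_⟩
    rw [Finset.prod_mul_distrib, h1', mul_one, ← h1]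
    exact Equiv.prod_comp π' ε
  inv_mem' := by
    rintro σ ⟨π, ε, h, h1⟩
    refine ⟨_, _, h.inv, ?_⟩
    rw [← h1]
    exact Equiv.prod_comp π⁻¹ ε

/-- The symmetric group. -/
def Psi.H (D : Psi k N) : Subgroup (N ≃ₐ[k] N) where
  carrier := {σ | ∃ π, D.Acts π 1 1 σ}
  one_mem' := ⟨1, Psi.Acts.one D⟩
  mul_mem' := by
    rintro σ σ' ⟨π, h⟩ ⟨π', h'⟩
    refine ⟨π * π', ?_⟩
    have h1 := h.mul h'
    simp only [Pi.one_apply, mul_one] at h1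
    exact h1
  inv_mem' := by
    rintro σ ⟨π, h⟩
    exact ⟨π⁻¹, h.inv⟩

/-- `π = 1`, `ε 0 = 1`, `δ = 1`. -/
def Psi.G1 (D : Psi k N) : Subgroup (N ≃ₐ[k] N) where
  carrier := {σ | ∃ ε, D.Acts 1 ε 1 σ ∧ ε 0 = 1}
  one_mem' := ⟨1, Psi.Acts.one D, rfl⟩
  mul_mem' := by
    rintro σ σ' ⟨ε, h, h2⟩ ⟨ε', h', h2'⟩
    refine ⟨fun i => ε i * ε' i, ?_, ?_⟩
    · have h1 := h.mul h'
      simp only [mul_one, Equiv.Perm.coe_one, id_eq] at h1
      exact h1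
    · beta_reduce
      rw [h2, h2', one_mul]
  inv_mem' := by
    rintro σ ⟨ε, h, h2⟩
    refine ⟨ε, ?_, h2⟩
    have h1 := h.inv
    simp only [inv_one, Equiv.Perm.coe_one, id_eq] at h1
    exact h1

/-- `ε 0 * ε 1 = 1`. -/
def Psi.G2 (D : Psi k N) : Subgroup (N ≃ₐ[k] N) where
  carrier := {σ | ∃ π ε δ, D.Acts π ε δ σ ∧ ∏ i, ε i = 1}
  one_mem' := ⟨1, 1, 1, Psi.Acts.one D, by simp⟩
  mul_mem' := by
    rintro σ σ' ⟨π, ε, δ, h, h1⟩ ⟨π', ε', δ', h', h1'⟩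
    refine ⟨_, _, _, h.mul h', ?_⟩
    rw [Finset.prod_mul_distrib, h1', mul_one, ← h1]
    exact Equiv.prod_comp π' ε
  inv_mem' := by
    rintro σ ⟨π, ε, δ, h, h1⟩
    refine ⟨_, _, _, h.inv, ?_⟩
    rw [← h1]
    exact Equiv.prod_comp π⁻¹ ε

/-- `ε 0 * ε 1 * δ = 1`. -/
def Psi.G3 (D : Psi k N) : Subgroup (N ≃ₐ[k] N) where
  carrier := {σ | ∃ π ε δ, D.Acts π ε δ σ ∧ (∏ i, ε i) * δ = 1}
  one_mem' := ⟨1, 1, 1, Psi.Acts.one D, by simp⟩
  mul_mem' := by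
    rintro σ σ' ⟨π, ε, δ, h, h1⟩ ⟨π', ε', δ', h', h1'⟩
    refine ⟨_, _, _, h.mul h', ?_⟩
    rw [Finset.prod_mul_distrib, Equiv.prod_comp π' ε]
    rw [mul_mul_mul_comm, h1, h1', one_mul]
  inv_mem' := by
    rintro σ ⟨π, ε, δ, h, h1⟩
    refine ⟨_, _, _, h.inv, ?_⟩
    rw [← h1]
    congr 1
    exact Equiv.prod_comp π⁻¹ ε

end

/-! ### The blocks -/

/-- [D] the decomposition theorem. -/
def StmtD : Prop := ∀ (k N : Type u) [Field k] [IsAlgClosed k] [CharZero k] [Field N] [Algebra k N]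
    (H : Subgroup (N ≃ₐ[k] N)) [Fintype H] (m : ℕ) (Γ : Fin m → Subgroup (N ≃ₐ[k] N)) [∀ i, Fintype (Γ i)]
    (D : ℕ) (_ : 0 < D) (c : Fin m → (N ≃ₐ[k] N) →₀ ℤ)
    (_ : ∀ (M : Type u) [AddCommGroup M] (A : (N ≃ₐ[k] N) → M), (∀ g, ∀ η ∈ H, A (g * η) = A g) →
      (D : ℤ) • A 1 = ∑ i, (c i).sum fun h z => z • ∑ γ : Γ i, A (h * γ))
    (p : Fin m → ℕ) (_ : ∀ i, VPJ k (IntermediateField.fixedField (Γ i)) (p i)), VPJH k N H (∑ i, p i)

/-- [E] elliptic surfaces with full two-torsion. -/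
def StmtE : Prop := ∀ (k F : Type u) [Field k] [IsAlgClosed k] [CharZero k] [Field F] [Algebra k F]
    (e : Fin 3 → k[X]) (_ : ∀ i, (e i).natDegree ≤ 4) (_ : Injective e) (l x y : F)
    (_ : AlgebraicIndependent k ![l, x]) (_ : y ^ 2 = ∏ i, (x - aeval l (e i)))
    (_ : IntermediateField.adjoin k {l, x, y} = ⊤), VPJ k F 1

/-- [L] double planes over six lines. -/
def StmtL : Prop := ∀ (k F : Type u) [Field k] [IsAlgClosed k] [CharZero k] [Field F] [Algebra k F]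
    (l : Fin 6 → Fin 3 → k) (_ : ∀ j, l j ≠ 0) (s t w : F) (_ : AlgebraicIndependent k ![s, t])
    (_ : w ^ 2 = ∏ j, (algebraMap k F (l j 0) + algebraMap k F (l j 1) * s + algebraMap k F (l j 2) * t))
    (_ : IntermediateField.adjoin k {s, t, w} = ⊤), VPJ k F 1

/-- [A3] the automorphisms, first type. -/
def StmtA3 : Prop := ∀ (k N : Type u) [Field k] [IsAlgClosed k] [CharZero k] [Field N] [Algebra k N]
    (D : Phi k N) (π : Equiv.Perm (Fin 3)) (ε : Fin 3 → ℤˣ), ∃ σ, D.Acts π ε σ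

/-- [A2] the automorphisms, second type. -/
def StmtA2 : Prop := ∀ (k N : Type u) [Field k] [IsAlgClosed k] [CharZero k] [Field N] [Algebra k N]
    (D : Psi k N) (π : Equiv.Perm (Fin 2)) (ε : Fin 2 → ℤˣ) (δ : ℤˣ), ∃ σ, D.Acts π ε δ σ

/-- [C3] the certificate, first type. -/
def StmtC3 : Prop := ∀ (k N : Type u) [Field k] [IsAlgClosed k] [CharZero k] [Field N] [Algebra k N]
    (D : Phi k N) [Fintype D.G1] [Fintype D.G2] [Fintype D.G3]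
    (_ : ∀ (π : Equiv.Perm (Fin 3)) (ε : Fin 3 → ℤˣ), ∃ σ, D.Acts π ε σ),
    ∃ (d : ℕ) (c1 c2 c3 : (N ≃ₐ[k] N) →₀ ℤ), 0 < d ∧ ∀ (M : Type u) [AddCommGroup M] (A : (N ≃ₐ[k] N) → M),
      (∀ g, ∀ η ∈ D.H, A (g * η) = A g) → (d : ℤ) • A 1 = (c1.sum fun h z => z • ∑ γ : D.G1, A (h * γ)) +
        (c2.sum fun h z => z • ∑ γ : D.G2, A (h * γ)) + (c3.sum fun h z => z • ∑ γ : D.G3, A (h * γ))

/-- [C2] the certificate, second type. -/
def StmtC2 : Prop := ∀ (k N : Type u) [Field k] [IsAlgClosed k] [CharZero k] [Field N] [Algebra k N]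
    (D : Psi k N) [Fintype D.G1] [Fintype D.G2] [Fintype D.G3]
    (_ : ∀ (π : Equiv.Perm (Fin 2)) (ε : Fin 2 → ℤˣ) (δ : ℤˣ), ∃ σ, D.Acts π ε δ σ),
    ∃ (d : ℕ) (c1 c2 c3 : (N ≃ₐ[k] N) →₀ ℤ), 0 < d ∧ ∀ (M : Type u) [AddCommGroup M] (A : (N ≃ₐ[k] N) → M),
      (∀ g, ∀ η ∈ D.H, A (g * η) = A g) → (d : ℤ) • A 1 = (c1.sum fun h z => z • ∑ γ : D.G1, A (h * γ)) +
        (c2.sum fun h z => z • ∑ γ : D.G2, A (h * γ)) + (c3.sum fun h z => z • ∑ γ : D.G3, A (h * γ))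

/-- [I3] the fixed fields, first type. -/
def StmtI3 : Prop := ∀ (k N : Type u) [Field k] [IsAlgClosed k] [CharZero k] [Field N] [Algebra k N]
    (D : Phi k N) (_ : ∀ (π : Equiv.Perm (Fin 3)) (ε : Fin 3 → ℤˣ), ∃ σ, D.Acts π ε σ),
    VPJ k (IntermediateField.fixedField D.G1) 0 ∧ VPJ k (IntermediateField.fixedField D.G2) 1 ∧
      VPJ k (IntermediateField.fixedField D.G3) 1

/-- [I2] the fixed fields, second type. -/
def StmtI2 : Prop := ∀ (k N : Type u) [Field k] [IsAlgClosed k] [CharZero k] [Field N] [Algebra k N]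
    (D : Psi k N) (_ : ∀ (π : Equiv.Perm (Fin 2)) (ε : Fin 2 → ℤˣ) (δ : ℤˣ), ∃ σ, D.Acts π ε δ σ),
    VPJ k (IntermediateField.fixedField D.G1) 0 ∧ VPJ k (IntermediateField.fixedField D.G2) 1 ∧
      VPJ k (IntermediateField.fixedField D.G3) 1

end Pool.Agent.Helper79.B4
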