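import Mathlib
import Pool.Agent.Helper79.B4.Defs

/-!
# B4: the decomposition theorem for invariant subfields
-/

set_option linter.unusedSectionVars false

namespace Pool.Agent.Helper79.B4

open VC VF Function Polynomial Pool.Agent.Helper21.TO Pool.Agent.Helper15.GT

universe u

theorem stmtD : StmtD.{u} := by
  classical
  intro k N _ _ _ _ _ H _ m Γ _ D hD c hc p h M ξ hξ hfix n hn
  set d : ℕ := ∑ i, Fintype.card (Γ i) with hd0
  have hd : ∀ i, Fintype.card (Γ i) ≤ d := fun i =>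
    Finset.single_le_sum (f := fun i => Fintype.card (Γ i)) (fun _ _ => Nat.zero_le _) (Finset.mem_univ i)
  set ρ : (N ≃ₐ[k] N) →* (N ≃ₐ[k] N) := MonoidHom.id _ with hρ
  have hp : ∀ i, VPJ k (IntermediateField.fixedField ((Γ i).map ρ)) (p i) := by
    intro i
    rw [hρ, Subgroup.map_id]
    exact h i
  have hCor : ∀ i, Cor (proj k (van k (fixV ρ ξ (Γ i) d))) (proj k (van k ξ)) (Zc (Γ i) (van k ξ) d) := by
    intro i
    have h1 := cor_Zc (k := k) (hd i) (van k ξ) (tr ρ ξ (fun γ : Γ i => (γ : N ≃ₐ[k] N))) (fun j => by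
      intro P hP n hn
      have h2 : P ∈ van k (fun i' => (ρ (j : N ≃ₐ[k] N)) (ξ i')) := by
        rw [van_aut]
        exact hP
      exact h2)
    rw [← van_fixV ρ ξ (Γ i) d] at h1
    exact h1
  refine voisinOn_dec (S := proj k (van k ξ)) (fun K _ _ hK p => pconst K hK p)
    (X := fun i => proj k (van k (fixV ρ ξ (Γ i) d)))
    (Z := fun i => Zc (Γ i) (van k ξ) d) hCor
    (fun i => {b | ∃ a : RPl k (IntermediateField.fixedField ((Γ i).map ρ)) →₀ ℤ, AJ k _ a ∧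
      b = a.mapDomain (evP (fixV ρ ξ (Γ i) d) (fixV_ne_zero ρ hξ (Γ i) (hd i)))}) p
    (fun i n' hn' => hp i _ (fixV ρ ξ (Γ i) d) (fixV_ne_zero ρ hξ (Γ i) (hd i)) n' hn') hn _ ?_
  rintro b ⟨a₀, ha, rfl⟩
  set a : RPl k N →₀ ℤ := ∑ η : H, a₀.mapDomain (fun w => w.comap ((η : N ≃ₐ[k] N) : N →ₐ[k] N)) with haa
  set f : ∀ i, (N ≃ₐ[k] N) → IntermediateField.fixedField ((Γ i).map ρ) →ₐ[k] N := fun i h =>
    ((ρ h : N ≃ₐ[k] N) : N →ₐ[k] N).comp (IntermediateField.val _) with hf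
  refine ⟨D * Fintype.card H, Nat.mul_pos hD Fintype.card_pos, fun i =>
    (∑ h ∈ (c i).support, c i h • a.mapDomain (fun w => w.comap (f i h))).mapDomain
    (evP (fixV ρ ξ (Γ i) d) (fixV_ne_zero ρ hξ (Γ i) (hd i))), fun i =>
      ⟨_, ha.comb _ _ _, rfl⟩, ?_⟩
  set A : (N ≃ₐ[k] N) → (proj k (van k ξ)).Cycles := fun g =>
    a.mapDomain (fun w => evP ξ hξ (w.comap ((ρ g : N ≃ₐ[k] N) : N →ₐ[k] N))) with hA
  -- evaluation does not see the right translations by `H`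
  have hev : ∀ η ∈ H, ∀ w : RPl k N, evP ξ hξ (w.comap ((η : N ≃ₐ[k] N) : N →ₐ[k] N)) = evP ξ hξ w := by
    intro η hη w
    obtain ⟨b, hb, hs, hv, he⟩ := exists_evP ξ hξ w
    have h1 : Vl w (fun i => ((η : N ≃ₐ[k] N) : N →ₐ[k] N) (ξ i)) b := by
      have e2 : (fun i => ((η : N ≃ₐ[k] N) : N →ₐ[k] N) (ξ i)) = ξ := by
        funext i
        exact hfix η hη i
      rw [e2]
      exact hv
    rw [evP_eq hξ (Vl.comap' hξ h1) hb hs, he]
  have hAH : ∀ g, ∀ η ∈ H, A (g * η) = A g := by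
    intro g η hη
    rw [hA]
    beta_reduce
    congr 1
    funext w
    have e : w.comap ((ρ (g * η) : N ≃ₐ[k] N) : N →ₐ[k] N) =
        (w.comap ((ρ g : N ≃ₐ[k] N) : N →ₐ[k] N)).comap ((η : N ≃ₐ[k] N) : N →ₐ[k] N) := by
      rw [map_mul]
      ext z
      rfl
    rw [e, hev η hη]
  have hA1 : A 1 = (Fintype.card H : ℕ) • a₀.mapDomain (evP ξ hξ) := by
    have e1 : A 1 = a.mapDomain (evP ξ hξ) := by
      rw [hA]
      beta_reduce
      congr 1
    rw [e1, haa, Finsupp.mapDomain_finsetSum]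
    have e2 : ∀ η : H, (a₀.mapDomain (fun w => w.comap ((η : N ≃ₐ[k] N) : N →ₐ[k] N))).mapDomain (evP ξ hξ) =
        a₀.mapDomain (evP ξ hξ) := by
      intro η
      rw [← Finsupp.mapDomain_comp]
      congr 1
      funext w
      exact hev η η.2 w
    rw [Finset.sum_congr rfl fun η _ => e2 η, Finset.sum_const, Finset.card_univ]
  have key : ∀ i, Finsupp.linearCombination ℤ (Zc (Γ i) (van k ξ) d)
      ((∑ h ∈ (c i).support, c i h • a.mapDomain (fun w => w.comap (f i h))).mapDomain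
        (evP (fixV ρ ξ (Γ i) d) (fixV_ne_zero ρ hξ (Γ i) (hd i)))) =
      (c i).sum fun h z => z • ∑ γ : Γ i, A (h * γ) := by
    intro i
    rw [Finsupp.linearCombination_mapDomain, map_sum, Finsupp.sum]
    refine Finset.sum_congr rfl fun h _ => ?_
    rw [map_smul, Finsupp.linearCombination_mapDomain]
    congr 1
    have e : ((Zc (Γ i) (van k ξ) d ∘
        evP (fixV ρ ξ (Γ i) d) (fixV_ne_zero ρ hξ (Γ i) (hd i))) ∘
        fun w : RPl k N => w.comap (f i h)) = fun w => ∑ γ : Γ i,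
          Finsupp.single (evP ξ hξ (w.comap ((ρ (h * γ) : N ≃ₐ[k] N) : N →ₐ[k] N))) (1 : ℤ) := by
      funext w
      exact Z_ev ρ hξ (Γ i) (hd i) w h
    rw [e, Finsupp.linearCombination_apply, Finsupp.sum]
    simp only [Finset.smul_sum]
    rw [Finset.sum_comm]
    refine Finset.sum_congr rfl fun γ _ => ?_
    rw [hA]
    beta_reduce
    rw [Finsupp.mapDomain, Finsupp.sum]
    refine Finset.sum_congr rfl fun w _ => ?_
    rw [Finsupp.smul_single, smul_eq_mul, mul_one]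
  have h0 : (D * Fintype.card H) • a₀.mapDomain (evP ξ hξ) - ∑ i, Finsupp.linearCombination ℤ
      (Zc (Γ i) (van k ξ) d) ((∑ h ∈ (c i).support, c i h • a.mapDomain (fun w => w.comap (f i h))).mapDomain
        (evP (fixV ρ ξ (Γ i) d) (fixV_ne_zero ρ hξ (Γ i) (hd i)))) = 0 := by
    rw [sub_eq_zero, Finset.sum_congr rfl fun i _ => key i, mul_smul, ← hA1]
    have h1 := hc _ A hAH
    rw [natCast_zsmul] at h1
    exact h1
  rw [h0]
  exact Nul.zero

end Pool.Agent.Helper79.B4
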