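import Mathlib
import Pool.Agent.Helper79.B4.DecH

/-!
# B4: the surfaces with `p_g = q = 2`, `K ^ 2 = 4`, assembly
-/

set_option linter.unusedSectionVars false

namespace Pool.Agent.Helper79.B4

open VC VF Function Polynomial Pool.Agent.Helper21.TO Pool.Agent.Helper15.GT

universe u

section

variable {k N : Type u} [Field k] [Field N] [Algebra k N]

lemma ext_of_gen {S : Set N} (hS : IntermediateField.adjoin k S = ⊤) {σ τ : N ≃ₐ[k] N} (h : ∀ s ∈ S, σ s = τ s) :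
    σ = τ := by
  ext z
  have hz : z ∈ IntermediateField.adjoin k S := by
    rw [hS]
    exact IntermediateField.mem_top
  induction hz using IntermediateField.adjoin_induction with
  | mem x hx => exact h x hx
  | algebraMap x => rw [σ.commutes, τ.commutes]
  | add x y _ _ hx hy => rw [map_add, map_add, hx, hy]
  | inv x _ hx => rw [map_inv₀, map_inv₀, hx]
  | mul x y _ _ hx hy => rw [map_mul, map_mul, hx, hy]

lemma Phi.Acts.ext {D : Phi k N} {π : Equiv.Perm (Fin 3)} {ε : Fin 3 → ℤˣ} {σ τ : N ≃ₐ[k] N}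
    (h : D.Acts π ε σ) (h' : D.Acts π ε τ) : σ = τ := by
  refine ext_of_gen D.hgen ?_
  rintro s (⟨i, rfl⟩ | ⟨i, rfl⟩)
  · rw [(h i).1, (h' i).1]
  · rw [(h i).2, (h' i).2]

lemma Psi.Acts.ext {D : Psi k N} {π : Equiv.Perm (Fin 2)} {ε : Fin 2 → ℤˣ} {δ : ℤˣ} {σ τ : N ≃ₐ[k] N}
    (h : D.Acts π ε δ σ) (h' : D.Acts π ε δ τ) : σ = τ := by
  refine ext_of_gen D.hgen ?_
  rintro s ((⟨i, rfl⟩ | ⟨i, rfl⟩) | hs)
  · rw [(h.1 i).1, (h'.1 i).1]
  · rw [(h.1 i).2, (h'.1 i).2]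
  · rw [Set.mem_singleton_iff.mp hs, h.2, h'.2]

lemma Phi.finite (D : Phi k N) (G : Subgroup (N ≃ₐ[k] N)) (hG : ∀ σ ∈ G, ∃ π ε, D.Acts π ε σ) : Finite G := by
  choose! π ε h using hG
  refine Finite.of_injective (fun σ : G => (π σ, ε σ)) fun σ τ hst => Subtype.ext ?_
  have h1 := h σ σ.2
  have h2 := h τ τ.2
  have e1 : π (σ : N ≃ₐ[k] N) = π (τ : N ≃ₐ[k] N) := (Prod.ext_iff.mp hst).1
  have e2 : ε (σ : N ≃ₐ[k] N) = ε (τ : N ≃ₐ[k] N) := (Prod.ext_iff.mp hst).2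
  rw [e1, e2] at h1
  exact h1.ext h2

lemma Psi.finite (D : Psi k N) (G : Subgroup (N ≃ₐ[k] N)) (hG : ∀ σ ∈ G, ∃ π ε δ, D.Acts π ε δ σ) : Finite G := by
  choose! π ε δ h using hG
  refine Finite.of_injective (fun σ : G => (π σ, ε σ, δ σ)) fun σ τ hst => Subtype.ext ?_
  have h1 := h σ σ.2
  have h2 := h τ τ.2
  have e1 : π (σ : N ≃ₐ[k] N) = π (τ : N ≃ₐ[k] N) := (Prod.ext_iff.mp hst).1
  have e2 : ε (σ : N ≃ₐ[k] N) = ε (τ : N ≃ₐ[k] N) := (Prod.ext_iff.mp (Prod.ext_iff.mp hst).2).1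
  have e3 : δ (σ : N ≃ₐ[k] N) = δ (τ : N ≃ₐ[k] N) := (Prod.ext_iff.mp (Prod.ext_iff.mp hst).2).2
  rw [e1, e2, e3] at h1
  exact h1.ext h2

instance (D : Phi k N) : Finite D.H := D.finite _ fun _ ⟨π, h⟩ => ⟨π, 1, h⟩
instance (D : Phi k N) : Finite D.G1 := D.finite _ fun _ ⟨π, ε, h, _⟩ => ⟨π, ε, h⟩
instance (D : Phi k N) : Finite D.G2 := D.finite _ fun _ ⟨π, ε, h, _⟩ => ⟨π, ε, h⟩
instance (D : Phi k N) : Finite D.G3 := D.finite _ fun _ ⟨π, ε, h, _⟩ => ⟨π, ε, h⟩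
instance (D : Psi k N) : Finite D.H := D.finite _ fun _ ⟨π, h⟩ => ⟨π, 1, 1, h⟩
instance (D : Psi k N) : Finite D.G1 := D.finite _ fun _ ⟨ε, h, _⟩ => ⟨1, ε, 1, h⟩
instance (D : Psi k N) : Finite D.G2 := D.finite _ fun _ ⟨π, ε, δ, h, _⟩ => ⟨π, ε, δ, h⟩
instance (D : Psi k N) : Finite D.G3 := D.finite _ fun _ ⟨π, ε, δ, h, _⟩ => ⟨π, ε, δ, h⟩

end

/-- Voisin's property for `n > 2` for the surface `{φ = 0}` in the third symmetric power of a curve of genus two. -/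
theorem phi_main (hA : StmtA3.{u}) (hC : StmtC3.{u}) (hI : StmtI3.{u}) (k N : Type u) [Field k] [IsAlgClosed k]
    [CharZero k] [Field N] [Algebra k N] (D : Phi k N) [Fintype D.H] : VPJH k N D.H 2 := by
  classical
  letI : Fintype D.G1 := Fintype.ofFinite _
  letI : Fintype D.G2 := Fintype.ofFinite _
  letI : Fintype D.G3 := Fintype.ofFinite _
  obtain ⟨d, c1, c2, c3, hd, hc⟩ := hC k N D (hA k N D)
  obtain ⟨h1, h2, h3⟩ := hI k N D (hA k N D)
  have hfin : ∀ i : Fin 3, Finite ((![D.G1, D.G2, D.G3] : Fin 3 → Subgroup (N ≃ₐ[k] N)) i) := fun i => by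
    fin_cases i
    · exact inferInstanceAs (Finite D.G1)
    · exact inferInstanceAs (Finite D.G2)
    · exact inferInstanceAs (Finite D.G3)
  letI : ∀ i : Fin 3, Fintype ((![D.G1, D.G2, D.G3] : Fin 3 → Subgroup (N ≃ₐ[k] N)) i) := fun i =>
    @Fintype.ofFinite _ (hfin i)
  have h := stmtD k N D.H 3 ![D.G1, D.G2, D.G3] d hd ![c1, c2, c3] (fun M _ A hA => by
    rw [hc M A hA, Fin.sum_univ_three]
    rfl) ![0, 1, 1] (fun i => by
      fin_cases i
      · exact h1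
      · exact h2
      · exact h3)
  exact h

/-- Voisin's property for `n > 2` for the double cover `w ^ 2 = ψ` of the second symmetric power of a curve of genus
two. -/
theorem psi_main (hA : StmtA2.{u}) (hC : StmtC2.{u}) (hI : StmtI2.{u}) (k N : Type u) [Field k] [IsAlgClosed k]
    [CharZero k] [Field N] [Algebra k N] (D : Psi k N) [Fintype D.H] : VPJH k N D.H 2 := by
  classical
  letI : Fintype D.G1 := Fintype.ofFinite _
  letI : Fintype D.G2 := Fintype.ofFinite _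
  letI : Fintype D.G3 := Fintype.ofFinite _
  obtain ⟨d, c1, c2, c3, hd, hc⟩ := hC k N D (hA k N D)
  obtain ⟨h1, h2, h3⟩ := hI k N D (hA k N D)
  have hfin : ∀ i : Fin 3, Finite ((![D.G1, D.G2, D.G3] : Fin 3 → Subgroup (N ≃ₐ[k] N)) i) := fun i => by
    fin_cases i
    · exact inferInstanceAs (Finite D.G1)
    · exact inferInstanceAs (Finite D.G2)
    · exact inferInstanceAs (Finite D.G3)
  letI : ∀ i : Fin 3, Fintype ((![D.G1, D.G2, D.G3] : Fin 3 → Subgroup (N ≃ₐ[k] N)) i) := fun i =>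
    @Fintype.ofFinite _ (hfin i)
  have h := stmtD k N D.H 3 ![D.G1, D.G2, D.G3] d hd ![c1, c2, c3] (fun M _ A hA => by
    rw [hc M A hA, Fin.sum_univ_three]
    rfl) ![0, 1, 1] (fun i => by
      fin_cases i
      · exact h1
      · exact h2
      · exact h3)
  exact h

end Pool.Agent.Helper79.B4
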