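import Mathlib
import Pool.Agent.Helper79.B4.Main
import Pool.Agent.Helper98.IR.B4
import Pool.Agent.Helper67.IR.WI
import Pool.Agent.Helper70.B4.PsiFix

/-!
# B4: Voisin's property for `n > 2` for the surfaces with `p_g = q = 2`, `K ^ 2 = 4`
-/

set_option linter.unusedSectionVars false

namespace Pool.Agent.Helper79.B4

universe u

/-- Voisin's property for `n > 2` for the surface `{φ = 0}` in the third symmetric power of a curve of genus two. -/
theorem Phi.vpjh {k N : Type u} [Field k] [IsAlgClosed k] [CharZero k] [Field N] [Algebra k N] (D : Phi k N)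
    [Fintype D.H] : VPJH k N D.H 2 :=
  phi_main a3 Pool.Agent.Helper67.IR.c3 Pool.Agent.Helper67.IR.i3 k N D

/-- Voisin's property for `n > 2` for the double cover `w ^ 2 = ψ` of the second symmetric power of a curve of genus
two. -/
theorem Psi.vpjh {k N : Type u} [Field k] [IsAlgClosed k] [CharZero k] [Field N] [Algebra k N] (D : Psi k N)
    [Fintype D.H] : VPJH k N D.H 2 :=
  psi_main a2 Pool.Agent.Helper67.IR.c2 Pool.Agent.Helper70.B4.i2 k N D

end Pool.Agent.Helper79.B4
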